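import Pool.Agent.Helper9.OB.B2

/-!
# Project OB, layer B (MP_0f6f3f_an, target `so(2, n)`): the decomposition of `vec`

`vec_eq`: `vec b` is the sum of its components over `R1 S` and `R2 S`, for `b n ∈ F` which leaves the compact sets.
-/

set_option autoImplicit false
set_option linter.unusedSectionVars false

open MeasureTheory Filter Topology

namespace Pool.Agent.Helper9.OB

open Pool.Agent.Helper84.NI Pool.Agent.Helper84.GVN Pool.Agent.Helper90.RK
open Pool.Agent.Helper84.GN hiding toReg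
open Pool.Agent.Helper84.GN.S3 Pool.Agent.Helper84.GN.S3.X
open Pool.Agent.Helper96.RK Pool.Agent.Helper66.FR Pool.Agent.Helper84.FR Pool.Agent.Helper96.FR Pool.Agent.Helper55.FR
open Pool.Agent.Helper43.TA Pool.Agent.Helper43.TH Pool.Agent.Helper55.OB

variable {G1 X G Λ : Type} [Group G1] [TopologicalSpace G1] [IsTopologicalGroup G1] [MeasurableSpace X]
  {μ : Measure X} [MulAction G1 X] [MeasurableConstSMul G1 X] [SMulInvariantMeasure G1 X μ] [IsProbabilityMeasure μ]
  [Group G] [Group Λ] [Countable Λ] {a : Cocy G1 X Λ} {E : Emb Λ G} {N : ℕ} {P : PH G N} {S : Sv P}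
  {F : Subgroup G1}

omit [TopologicalSpace G1] [IsTopologicalGroup G1] [Group Λ] [Countable Λ] [MeasurableConstSMul G1 X]
  [SMulInvariantMeasure G1 X μ] [MulAction G1 X] [Group G1] in
/-- The components over `R1` and `R2` are orthogonal. -/
theorem inner_R12 (h : SO2 P S) {ξ η : UE μ (L2 G)} (hξ : ξ ∈ XUa μ (R1 S)) (hη : η ∈ XUa μ (R2 S)) :
    (inner ℂ ξ η : ℂ) = 0 := by
  have hN := h.hN
  have e1 : UE.map μ (ind ℂ (TC S [K1 N] 1)) ξ = ξ := XUa_ind (R1 S) (fun n => TC_mem_FC S (K1 N) [] 1 n) hξ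
  have e2 : UE.map μ (ind ℂ (TC S [K2 N] 1)) η = η := XUa_ind (R2 S) (fun n => TC_mem_FC S (K2 N) [] 1 n) hη
  have e3 : UE.map μ (ind ℂ (TC S [K1 N] 1)) η = 0 := by
    rw [← e2, xind_ind]
    have hdis : TC S [K1 N] 1 ∩ TC S [K2 N] 1 = ∅ := by
      ext γ
      simp only [Set.mem_inter_iff, Set.mem_empty_iff_false, iff_false, not_and]
      intro h1 h2
      have g1 := ((TC_cons S).1 h1).1 ⟨0, by omega⟩ (by rw [mem_K1]; simp)
      have g2 := ((TC_cons S).1 h2).1 ⟨1, by omega⟩ (by rw [mem_K2]; simp)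
      have g3 : lg S γ ⟨1, by omega⟩ ≤ ∑ i ∈ K1 N, lg S γ i :=
        Finset.single_le_sum (fun i _ => lg_nonneg S γ i) (by rw [mem_K1]; simp only; omega)
      have g4 : lg S γ ⟨0, by omega⟩ ≤ ∑ i ∈ K2 N, lg S γ i :=
        Finset.single_le_sum (fun i _ => lg_nonneg S γ i) (by rw [mem_K2]; simp only; omega)
      push_cast at g1 g2
      linarith
    rw [hdis]
    have h0 : ind ℂ (∅ : Set G) = (0 : L2 G →L[ℂ] L2 G) := by
      ext1 x
      apply lv_ext
      intro i
      classical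
      rw [ind_apply, _root_.zero_apply, lp.coeFn_zero, Pi.zero_apply]
      simp
    rw [h0]
    have := UE.map_add (μ := μ) (0 : L2 G →L[ℂ] L2 G) 0 η
    rw [add_zero] at this
    have h5 : UE.map μ (0 : L2 G →L[ℂ] L2 G) η = UE.map μ (0 : L2 G →L[ℂ] L2 G) η +
      UE.map μ (0 : L2 G →L[ℂ] L2 G) η := by
        exact this
    exact left_eq_add.1 h5
  have e4 : (inner ℂ (UE.map μ (ind ℂ (TC S [K1 N] 1)) ξ) η : ℂ) =
      inner ℂ ξ (UE.map μ (ind ℂ (TC S [K1 N] 1)) η) :=
    xinner_ind _ ξ η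
  rw [← e1, e4, e3, inner_zero_right]

private theorem proj_sq {H : Type} [NormedAddCommGroup H] [InnerProductSpace ℂ H] (K : Submodule ℂ H)
    [K.HasOrthogonalProjection] (v : H) : ‖v - K.starProjection v‖ ^ 2 = ‖v‖ ^ 2 - ‖K.starProjection v‖ ^ 2 := by
  have h1 : v = K.starProjection v + (v - K.starProjection v) := by abel
  have h2 : (inner ℂ (K.starProjection v) (v - K.starProjection v) : ℂ) = 0 := by
    have h3 := K.sub_starProjection_mem_orthogonal v
    exact h3 _ (K.starProjection_apply_mem v)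
  have h3 := norm_add_sq_eq_norm_sq_add_norm_sq_of_inner_eq_zero (K.starProjection v) (v - K.starProjection v) h2
  rw [← h1] at h3
  nlinarith

/-- (B1) `vec b` is the sum of its components over `R1` and `R2`. -/
theorem vec_eq (h : SO2 P S) (D : Dt1 μ a F) {b : ℕ → G1} (hbF : ∀ n, b n ∈ F)
    (hb : Tendsto b atTop (cocompact G1)) :
    ((XPpr (R1 S) (vec μ a E b) : XUa μ (R1 S)) : UE μ (L2 G)) +
      ((XPpr (R2 S) (vec μ a E b) : XUa μ (R2 S)) : UE μ (L2 G)) = vec μ a E b := by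
  have h1 := mass_one (E := E) h D hbF hb
  rw [mR_univ, mR_univ] at h1
  set v := vec μ a E b with hv
  have n1 : ‖v‖ = 1 := norm_vec b
  have q1 := proj_sq (XUa μ (R1 S)) v
  have r1 : (XUa μ (R1 S)).starProjection v = ((XPpr (R1 S) v : XUa μ (R1 S)) : UE μ (L2 G)) := rfl
  have q2 := proj_sq (XUa μ (R2 S)) (v - (XUa μ (R1 S)).starProjection v)
  have r3 : (XUa μ (R2 S)).starProjection ((XUa μ (R1 S)).starProjection v) = 0 := by
    rw [Submodule.starProjection_apply_eq_zero_iff, Submodule.mem_orthogonal]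
    intro w hw
    have h3 := inner_R12 h (ξ := (XUa μ (R1 S)).starProjection v) (η := w)
      ((XUa μ (R1 S)).starProjection_apply_mem v) hw
    rw [← inner_conj_symm, h3, map_zero]
  have r2 : (XUa μ (R2 S)).starProjection (v - (XUa μ (R1 S)).starProjection v) =
      ((XPpr (R2 S) v : XUa μ (R2 S)) : UE μ (L2 G)) := by
    rw [map_sub, r3, sub_zero]
    rfl
  rw [q1, r2, r1, n1] at q2
  have n2 : ‖((XPpr (R1 S) v : XUa μ (R1 S)) : UE μ (L2 G))‖ = ‖XPpr (R1 S) v‖ := rfl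
  have n3 : ‖((XPpr (R2 S) v : XUa μ (R2 S)) : UE μ (L2 G))‖ = ‖XPpr (R2 S) v‖ := rfl
  rw [n2, n3] at q2
  have q3 : ‖v - ((XPpr (R1 S) v : XUa μ (R1 S)) : UE μ (L2 G)) -
      ((XPpr (R2 S) v : XUa μ (R2 S)) : UE μ (L2 G))‖ ^ 2 = 0 := by
    rw [q2]
    linarith
  have q4 := norm_eq_zero.1 (pow_eq_zero_iff (two_ne_zero) |>.1 q3)
  rw [sub_sub, sub_eq_zero] at q4
  exact q4.symm

end Pool.Agent.Helper9.OB
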