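import Pool.Agent.Helper9.OB.B3

/-!
# Project OB, layer B (MP_0f6f3f_an, target `so(2, n)`): the final statements

`layerB1`, `layerB2` in the form of `Pool/Agent/Helper55/OB/Iface.lean`.
-/

set_option autoImplicit false
set_option linter.unusedSectionVars false

open MeasureTheory Filter Topology

namespace Pool.Agent.Helper9.OB

open Pool.Agent.Helper84.NI Pool.Agent.Helper84.GVN Pool.Agent.Helper90.RK
open Pool.Agent.Helper84.GN hiding toReg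
open Pool.Agent.Helper84.GN.S3 Pool.Agent.Helper84.GN.S3.X
open Pool.Agent.Helper96.RK Pool.Agent.Helper66.FR Pool.Agent.Helper84.FR Pool.Agent.Helper96.FR Pool.Agent.Helper55.FR
open Pool.Agent.Helper43.TA Pool.Agent.Helper43.TH Pool.Agent.Helper55.OB

variable {G1 X G Λ : Type} [Group G1] [TopologicalSpace G1] [IsTopologicalGroup G1] [MeasurableSpace X]
  {μ : Measure X} [MulAction G1 X] [MeasurableConstSMul G1 X] [SMulInvariantMeasure G1 X μ] [IsProbabilityMeasure μ]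
  [Group G] [Group Λ] [Countable Λ] {a : Cocy G1 X Λ} {E : Emb Λ G} {N : ℕ} {P : PH G N} {S : Sv P}
  {F : Subgroup G1}

/-- The data for the centralizer of `{e, u, w}`. -/
def Dt1.cen (D : Dt1 μ a F) {e u w : G1}
    (hu1 : Tendsto (fun m : ℕ => (e ^ m)⁻¹ * u * e ^ m) atTop (𝓝 1))
    (hw1 : Tendsto (fun m : ℕ => e ^ m * w * (e ^ m)⁻¹) atTop (𝓝 1))
    (hd : DiscreteTopology (Subgroup.closure {u, w})) (hna : NonAm (Subgroup.closure {u, w})) :
    Dt1 μ a (Subgroup.centralizer ({e, u, w} : Set G1)) where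
  h3 := D.h3
  hF2 := D.hF2
  hp := D.hp
  e := e
  u := u
  w := w
  cF f hf := by
    rw [Subgroup.mem_centralizer_iff] at hf
    exact ⟨(hf e (by simp)).symm, (hf u (by simp)).symm, (hf w (by simp)).symm⟩
  con := ⟨hu1, hw1, hd, hna⟩

/-- **Layer B, 1.** -/
theorem layerB1 (hS : SO2 P S) (D : Dat μ a F 1) {f : ℕ → G1} (hfF : ∀ n, f n ∈ F)
    (hf : Tendsto f atTop (cocompact G1)) :
    ∃ k : ℕ → ℕ, (∀ n, n ≤ k n) ∧ (XPpr (R1 S) (vec μ a E fun n => f (k n)) ≠ 0 ∨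
      XPpr (R2 S) (vec μ a E fun n => f (k n)) ≠ 0) :=
  ⟨fun n => n, fun _ => le_rfl, exists_comp (E := E) hS (Dt1.ofDat D 0) hfF hf⟩

/-- **Layer B, 2.** `e` commutes with the sequence `b'` and contracts a nonamenable group which commutes with `b'`. -/
theorem layerB2 (hS : SO2 P S) (D : Dat μ a F 1) {b' : ℕ → G1} (hb' : Tendsto b' atTop (cocompact G1))
    {e u w : G1} (he : ∀ n, b' n * e = e * b' n) (hu : ∀ n, b' n * u = u * b' n) (hw : ∀ n, b' n * w = w * b' n)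
    (hu1 : Tendsto (fun m : ℕ => (e ^ m)⁻¹ * u * e ^ m) atTop (𝓝 1))
    (hw1 : Tendsto (fun m : ℕ => e ^ m * w * (e ^ m)⁻¹) atTop (𝓝 1))
    (hd : DiscreteTopology (Subgroup.closure {u, w})) (hna : NonAm (Subgroup.closure {u, w})) :
    ∃ κ : ℕ → ℕ, StrictMono κ ∧ ∀ C ε : ℝ, 0 < ε → ∀ᶠ n in atTop, ∀ᶠ m in (hyperfilter ℕ : Filter ℕ),
      ‖cl μ (ind ℂ {γ | ∃ i : Fin N, (i : ℕ) < 2 ∧ lg S γ i ≤ C}) (zx μ a E (e ^ κ n * b' m))‖ ≤ ε := by
  obtain ⟨τ, hτ, hm⟩ := exists_tau (E := E) hS ((Dt1.ofDat D 0).cen hu1 hw1 hd hna) (b := b') (fun n => by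
    rw [Subgroup.mem_centralizer_iff]
    intro x hx
    simp only [Set.mem_insert_iff, Set.mem_singleton_iff] at hx
    rcases hx with rfl | rfl | rfl
    · exact (he n).symm
    · exact (hu n).symm
    · exact (hw n).symm) hb'
  refine ⟨τ, hτ, fun C ε hε => ?_⟩
  have h1 : ∀ᶠ n : ℕ in atTop, 1 / ((n : ℝ) + 1) < ε ^ 2 :=
    tendsto_one_div_add_atTop_nhds_zero_nat.eventually (gt_mem_nhds (by positivity))
  filter_upwards [h1, eventually_ge_atTop ⌈C⌉₊] with n hn hC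
  have h2 := ms_tendsto (μ := μ) (a := a) (E := E) (Both S n)ᶜ (ltr (e ^ τ n) b')
  have h3 : ms μ a E (Both S n)ᶜ (ltr (e ^ τ n) b') < ε ^ 2 := lt_of_le_of_lt (hm n) hn
  filter_upwards [h2.eventually (gt_mem_nhds h3)] with m hm'
  have hsub : {γ | ∃ i : Fin N, (i : ℕ) < 2 ∧ lg S γ i ≤ C} ⊆ (Both S n)ᶜ := by
    rintro γ ⟨i, hi, hl⟩ hγ
    have h4 := hγ i hi
    have h5 : C ≤ n := (Nat.le_ceil C).trans (by exact_mod_cast hC)
    linarith
  have cl_mono : ‖cl μ (ind ℂ {γ | ∃ i : Fin N, (i : ℕ) < 2 ∧ lg S γ i ≤ C}) (zx μ a E (e ^ τ n * b' m))‖ ≤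
      ‖cl μ (ind ℂ (Both S n)ᶜ) (zx μ a E (e ^ τ n * b' m))‖ := by
    have h1 := cl_ind_ind (μ := μ) {γ | ∃ i : Fin N, (i : ℕ) < 2 ∧ lg S γ i ≤ C} (Both S n)ᶜ
      (zx μ a E (e ^ τ n * b' m))
    rw [Set.inter_eq_left.2 hsub] at h1
    rw [← h1]
    refine (norm_cl_le_of (C := 1) zero_le_one (fun x => ?_) _).trans (le_of_eq (one_mul _))
    rw [one_mul]
    exact norm_ind2 _ x
  have h6 : ‖cl μ (ind ℂ (Both S n)ᶜ) (zx μ a E (e ^ τ n * b' m))‖ ^ 2 < ε ^ 2 := hm'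
  have h7 := abs_lt_of_sq_lt_sq h6 hε.le
  rw [abs_of_nonneg (norm_nonneg _)] at h7
  linarith

end Pool.Agent.Helper9.OB
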