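import Pool.Agent.Helper55.OB.Defs

/-!
# Project OB, layer B (MP_0f6f3f_an, target `so(2, n)`): types

`SO2 P S`: the gaps `0, N - 2` are equal, the gaps `1, N - 3` are equal, all others are trivial (`T00 N`). The types which occur are `K1 N` (points), `K2 N` (lines) and `T00 N` (both gaps large, one scale).
`Dt1 μ a F`: the cocycle properties and one element `e` with a nonamenable group `⟨u, w⟩` contracted by `e`, all commuting with `F` (`Dat μ a F 1` without the Mautner property). `Dt1.ofDat`, `Dt1.mul` (`e` may be multiplied by an element of `F` when `F` is commutative).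
(B1) `mass_one`: for `b n ∈ F` which leaves the compact sets the masses of the components over `R1 S` and `R2 S` have the sum `1`; `vec_eq`.
(B2) `both_mean`: the mean over `k` of the mass of `e ^ k * b n` (limit over `n`) outside of `Both S C` (both gaps larger than `C`) tends to `0`; `exists_tau`.
-/

set_option autoImplicit false
set_option linter.unusedSectionVars false

open MeasureTheory Filter Topology

namespace Pool.Agent.Helper9.OB

open Pool.Agent.Helper84.NI Pool.Agent.Helper84.GVN Pool.Agent.Helper90.RK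
open Pool.Agent.Helper84.GN hiding toReg
open Pool.Agent.Helper84.GN.S3 Pool.Agent.Helper84.GN.S3.X
open Pool.Agent.Helper96.RK Pool.Agent.Helper66.FR Pool.Agent.Helper84.FR Pool.Agent.Helper96.FR Pool.Agent.Helper55.FR
open Pool.Agent.Helper43.TA Pool.Agent.Helper43.TH Pool.Agent.Helper55.OB

section Geo

variable {G : Type} [Group G] {N : ℕ} {P : PH G N} {S : Sv P}

/-- The trivial gaps. -/
def T00 (N : ℕ) : Finset (Fin N) :=
  Finset.univ.filter fun i => (2 ≤ (i : ℕ) ∧ (i : ℕ) + 4 ≤ N) ∨ (i : ℕ) + 1 = N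

theorem mem_T00 {i : Fin N} : i ∈ T00 N ↔ (2 ≤ (i : ℕ) ∧ (i : ℕ) + 4 ≤ N) ∨ (i : ℕ) + 1 = N := by
  simp [T00]

theorem mem_K1 {i : Fin N} : i ∈ K1 N ↔ (i : ℕ) ≠ 0 ∧ (i : ℕ) + 2 ≠ N := by
  simp [K1]

theorem mem_K2 {i : Fin N} : i ∈ K2 N ↔ (i : ℕ) ≠ 1 ∧ (i : ℕ) + 3 ≠ N := by
  simp [K2]

theorem triv (h : SO2 P S) : Triv S (T00 N) := by
  intro γ i hi
  rw [mem_T00] at hi
  have e : gp S γ i = 1 := by
    unfold gp
    split_ifs with h1
    · have h2 : 2 ≤ (i : ℕ) ∧ (i : ℕ) + 4 ≤ N := by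
        rcases hi with h2 | h2
        · exact h2
        · omega
      rw [h.mid γ i h2.1 (by omega), h.mid γ ⟨i + 1, h1⟩ (by simp only; omega) (by simp only; omega), div_one]
    · rfl
  unfold lg
  rw [e, Real.log_one]

/-- The gaps `i` and `N - 2 - i` are equal. -/
theorem lg_pair (h : SO2 P S) (γ : G) {i j : Fin N} (hij : (i : ℕ) + j + 2 = N) : lg S γ i = lg S γ j := by
  have hi : (i : ℕ) + 1 < N := by omega
  have hj : (j : ℕ) + 1 < N := by omega
  have e1 : (⟨i + 1, hi⟩ : Fin N).rev = j := by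
    apply Fin.ext
    rw [Fin.val_rev]
    simp only
    omega
  have e2 : i.rev = (⟨j + 1, hj⟩ : Fin N) := by
    apply Fin.ext
    rw [Fin.val_rev]
    simp only
    omega
  have h1 := h.inv γ i
  have h2 := h.inv γ ⟨i + 1, hi⟩
  rw [e2] at h1
  rw [e1] at h2
  have p1 := S.pos γ i
  have p2 := S.pos γ j
  have p3 := S.pos γ ⟨i + 1, hi⟩
  have p4 := S.pos γ ⟨j + 1, hj⟩
  have e : gp S γ i = gp S γ j := by
    unfold gp
    rw [dif_pos hi, dif_pos hj, div_eq_div_iff p3.ne' p4.ne', h1, mul_comm, h2]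
  unfold lg
  rw [e]

/-- Both gaps are larger than `C` (logarithmic scale). -/
def Both (S : Sv P) (C : ℕ) : Set G := {γ | ∀ i : Fin N, (i : ℕ) < 2 → (C : ℝ) < lg S γ i}

/-- Types: symmetric sets which contain the trivial gaps. -/
def Ty (J : Finset (Fin N)) : Prop := T00 N ⊆ J ∧ ∀ i j : Fin N, (i : ℕ) + j + 2 = N → i ∈ J → j ∈ J

theorem ty_of (h : SO2 P S) {c : List (Finset (Fin N))} {m : ℕ} (hm : 1 ≤ m) {γ : G} (hγ : γ ∈ TC S c m) :
    ∀ J ∈ c, Ty J := by
  intro J hJ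
  refine ⟨triv_sub (triv h) hm hγ J hJ, fun i j hij hi => ?_⟩
  by_contra hj
  have h1 := hγ J hJ j hj
  have h2 : lg S γ i ≤ ∑ i ∈ J, lg S γ i := Finset.single_le_sum (fun i _ => lg_nonneg S γ i) hi
  have h3 := lg_pair h γ hij
  have h4 := lg_nonneg S γ i
  have h5 : (1 : ℝ) ≤ m := by exact_mod_cast hm
  nlinarith

theorem ty_cases (hN : 5 ≤ N) {J : Finset (Fin N)} (hJ : Ty J) :
    J = Finset.univ ∨ J = K1 N ∨ J = K2 N ∨ J = T00 N := by
  obtain ⟨h1, h2⟩ := hJ
  have i0 : (0 : ℕ) < N := by omega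
  have i1 : (1 : ℕ) < N := by omega
  have i2 : N - 2 < N := by omega
  have i3 : N - 3 < N := by omega
  have m0 : (⟨0, i0⟩ : Fin N) ∈ J ↔ (⟨N - 2, i2⟩ : Fin N) ∈ J :=
    ⟨fun h => h2 _ _ (by simp only; omega) h, fun h => h2 _ _ (by simp only; omega) h⟩
  have m1 : (⟨1, i1⟩ : Fin N) ∈ J ↔ (⟨N - 3, i3⟩ : Fin N) ∈ J :=
    ⟨fun h => h2 _ _ (by simp only; omega) h, fun h => h2 _ _ (by simp only; omega) h⟩
  have key : ∀ i : Fin N, i ∈ T00 N ∨ i = ⟨0, i0⟩ ∨ i = ⟨1, i1⟩ ∨ i = ⟨N - 2, i2⟩ ∨ i = ⟨N - 3, i3⟩ := by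
    intro i
    have hi := i.2
    rw [mem_T00]
    by_cases c0 : (i : ℕ) = 0
    · exact Or.inr (Or.inl (Fin.ext c0))
    by_cases c1 : (i : ℕ) = 1
    · exact Or.inr (Or.inr (Or.inl (Fin.ext c1)))
    by_cases c2 : (i : ℕ) = N - 2
    · exact Or.inr (Or.inr (Or.inr (Or.inl (Fin.ext c2))))
    by_cases c3 : (i : ℕ) = N - 3
    · exact Or.inr (Or.inr (Or.inr (Or.inr (Fin.ext c3))))
    left
    omega
  by_cases a0 : (⟨0, i0⟩ : Fin N) ∈ J <;> by_cases a1 : (⟨1, i1⟩ : Fin N) ∈ J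
  · left
    ext i
    simp only [Finset.mem_univ, iff_true]
    rcases key i with k | k | k | k | k
    · exact h1 k
    · rw [k]; exact a0
    · rw [k]; exact a1
    · rw [k]; exact m0.1 a0
    · rw [k]; exact m1.1 a1
  · right; right; left
    ext i
    rw [mem_K2]
    rcases key i with k | k | k | k | k
    · refine ⟨fun _ => ?_, fun _ => h1 k⟩
      rw [mem_T00] at k
      omega
    · rw [k]; exact ⟨fun _ => by simp only; omega, fun _ => a0⟩
    · rw [k]; exact ⟨fun h => absurd h a1, fun h => absurd rfl h.1⟩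
    · rw [k]; exact ⟨fun _ => by simp only; omega, fun _ => m0.1 a0⟩
    · rw [k]; exact ⟨fun h => absurd (m1.2 h) a1, fun h => absurd (by simp only; omega) h.2⟩
  · right; left
    ext i
    rw [mem_K1]
    rcases key i with k | k | k | k | k
    · refine ⟨fun _ => ?_, fun _ => h1 k⟩
      rw [mem_T00] at k
      omega
    · rw [k]; exact ⟨fun h => absurd h a0, fun h => absurd rfl h.1⟩
    · rw [k]; exact ⟨fun _ => by simp only; omega, fun _ => a1⟩
    · rw [k]; exact ⟨fun h => absurd (m0.2 h) a0, fun h => absurd (by simp only; omega) h.2⟩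
    · rw [k]; exact ⟨fun _ => by simp only; omega, fun _ => m1.1 a1⟩
  · right; right; right
    ext i
    rcases key i with k | k | k | k | k
    · exact ⟨fun _ => k, fun _ => h1 k⟩
    · rw [k, mem_T00]; exact ⟨fun h => absurd h a0, fun h => by simp only at h; omega⟩
    · rw [k, mem_T00]; exact ⟨fun h => absurd h a1, fun h => by simp only at h; omega⟩
    · rw [k, mem_T00]; exact ⟨fun h => absurd (m0.2 h) a0, fun h => by simp only at h; omega⟩
    · rw [k, mem_T00]; exact ⟨fun h => absurd (m1.2 h) a1, fun h => by simp only at h; omega⟩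

theorem T00_sub_K1 (hN : 5 ≤ N) : T00 N ⊆ K1 N := by
  intro i hi
  rw [mem_T00] at hi
  rw [mem_K1]
  omega

theorem T00_sub_K2 (hN : 5 ≤ N) : T00 N ⊆ K2 N := by
  intro i hi
  rw [mem_T00] at hi
  rw [mem_K2]
  omega

theorem K1_not_sub (hN : 5 ≤ N) {J : Finset (Fin N)} (h : J ⊆ K2 N) : ¬ K1 N ⊆ J := by
  intro h1
  have h2 : (⟨1, by omega⟩ : Fin N) ∈ K1 N := by
    rw [mem_K1]
    simp only
    omega
  have h3 := mem_K2.1 (h (h1 h2))
  exact h3.1 rfl

theorem K2_not_sub (hN : 5 ≤ N) {J : Finset (Fin N)} (h : J ⊆ K1 N) : ¬ K2 N ⊆ J := by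
  intro h1
  have h2 : (⟨0, by omega⟩ : Fin N) ∈ K2 N := by
    rw [mem_K2]
    simp only
    omega
  have h3 := mem_K1.1 (h (h1 h2))
  exact h3.1 rfl

/-- Two scales: both gaps are large. -/
theorem TJ_both (h : SO2 P S) (C : ℕ) : TJ S 2 (C + 1) ⊆ Both S C := by
  have hN := h.hN
  rintro γ ⟨c, hc, hch, hγ⟩
  obtain ⟨J1, c', rfl⟩ : ∃ J1 c', c = J1 :: c' := by
    rcases c with _ | ⟨J1, c'⟩
    · simp at hc
    · exact ⟨J1, c', rfl⟩
  obtain ⟨J0, c'', rfl⟩ : ∃ J0 c'', c' = J0 :: c'' := by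
    rcases c' with _ | ⟨J0, c''⟩
    · simp at hc
    · exact ⟨J0, c'', rfl⟩
  have hc'' : c'' = [] := by
    rw [List.length_cons, List.length_cons] at hc
    exact List.length_eq_zero_iff.1 (by omega)
  subst hc''
  obtain ⟨s1, s0, -⟩ := hch
  have s1' : J1 ⊂ J0 := s1
  have s0' : J0 ⊂ Finset.univ := s0
  have t := ty_of h (Nat.le_add_left 1 C) hγ
  have t1 := t J1 (by simp)
  have t0 := t J0 (by simp)
  have e : J1 = T00 N := by
    rcases ty_cases hN t1 with k | k | k | k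
    · exact absurd (k ▸ s1'.1 : Finset.univ ⊆ J0) s0'.2
    · exfalso
      rcases ty_cases hN t0 with l | l | l | l
      · exact s0'.ne l
      · exact s1'.ne (k.trans l.symm)
      · exact K1_not_sub hN (J := J1) (l ▸ s1'.1) (k ▸ le_rfl)
      · exact s1'.2 (l ▸ t1.1)
    · exfalso
      rcases ty_cases hN t0 with l | l | l | l
      · exact s0'.ne l
      · exact K2_not_sub hN (J := J1) (l ▸ s1'.1) (k ▸ le_rfl)
      · exact s1'.ne (k.trans l.symm)
      · exact s1'.2 (l ▸ t1.1)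
    · exact k
  intro i hi
  have h1 := ((TC_cons S).1 hγ).1 i (by
    rw [e, mem_T00]
    omega)
  have h2 := sum_lg_nonneg S γ J1
  have h3 : (0 : ℝ) ≤ C := Nat.cast_nonneg C
  push_cast at h1
  nlinarith

theorem WC_T00 (h : SO2 P S) (n : ℕ) : WC S (T00 N) n = Set.univ := by
  refine Set.eq_univ_of_forall fun γ i hi => ?_
  rw [triv h γ i hi]
  exact Nat.cast_nonneg n

end Geo

end Pool.Agent.Helper9.OB
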