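import Pool.Agent.Helper9.OB.B1

/-!
# Project OB, layer B (MP_0f6f3f_an, target `so(2, n)`): masses

See `B1.lean`.
-/

set_option autoImplicit false
set_option linter.unusedSectionVars false

open MeasureTheory Filter Topology

namespace Pool.Agent.Helper9.OB

open Pool.Agent.Helper84.NI Pool.Agent.Helper84.GVN Pool.Agent.Helper90.RK
open Pool.Agent.Helper84.GN hiding toReg
open Pool.Agent.Helper84.GN.S3 Pool.Agent.Helper84.GN.S3.X
open Pool.Agent.Helper96.RK Pool.Agent.Helper66.FR Pool.Agent.Helper84.FR Pool.Agent.Helper96.FR Pool.Agent.Helper55.FR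
open Pool.Agent.Helper43.TA Pool.Agent.Helper43.TH Pool.Agent.Helper55.OB

/-- The cocycle properties and one element `e` of the centralizer of `F` with a contracted nonamenable group `⟨u, w⟩`
in the centralizer of `F`. -/
structure Dt1 {G1 X Λ : Type} [Group G1] [TopologicalSpace G1] [MeasurableSpace X] (μ : Measure X) [MulAction G1 X] [Group Λ]
    (a : Cocy G1 X Λ) (F : Subgroup G1) where
  h3 : Tendsto (fun g : G1 => μ {x | a.a g x ≠ 1}) (𝓝 1) (𝓝 0)
  hF2 : ∀ l : Λ, Tendsto (fun g : G1 => μ {x | a.a g x = l}) (cocompact G1) (𝓝 0)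
  hp : ∀ F' : Subgroup G1, DiscreteTopology F' → Countable F' ∧ ∃ p : X → Λ → F',
    (∀ (l : Λ) (s : Set F'), MeasurableSet {x | p x l ∈ s}) ∧
      ∀ (f : F') (x : X) (l : Λ), p ((f : G1) • x) (a.a f x * l) = f * p x l
  /-- the element -/
  e : G1
  /-- a contracted element -/
  u : G1
  /-- an expanded element -/
  w : G1
  cF : ∀ f ∈ F, f * e = e * f ∧ f * u = u * f ∧ f * w = w * f
  con : Tendsto (fun m : ℕ => (e ^ m)⁻¹ * u * e ^ m) atTop (𝓝 1) ∧
    Tendsto (fun m : ℕ => e ^ m * w * (e ^ m)⁻¹) atTop (𝓝 1) ∧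
    DiscreteTopology (Subgroup.closure {u, w}) ∧ NonAm (Subgroup.closure {u, w})

section

variable {G1 X G Λ : Type} [Group G1] [TopologicalSpace G1] [IsTopologicalGroup G1] [MeasurableSpace X]
  {μ : Measure X} [MulAction G1 X] [MeasurableConstSMul G1 X] [SMulInvariantMeasure G1 X μ] [IsProbabilityMeasure μ]
  [Group G] [Group Λ] [Countable Λ] {a : Cocy G1 X Λ} {E : Emb Λ G} {N : ℕ} {P : PH G N} {S : Sv P}
  {F : Subgroup G1}

/-- The element `D.e i` of `Dat`. -/
def Dt1.ofDat {r : ℕ} (D : Dat μ a F r) (i : Fin r) : Dt1 μ a F where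
  h3 := D.h3
  hF2 := D.hF2
  hp := D.hp
  e := D.e i
  u := D.u i
  w := D.w i
  cF := D.cF i
  con := D.con i

omit [MeasurableConstSMul G1 X] [SMulInvariantMeasure G1 X μ] [IsProbabilityMeasure μ] [Countable Λ] in
private theorem conj_pow {x f y : G1} (h1 : f * x = x * f) (h2 : f * y = y * f) (m : ℕ) :
    ((x * f) ^ m)⁻¹ * y * (x * f) ^ m = (x ^ m)⁻¹ * y * x ^ m ∧
      (x * f) ^ m * y * ((x * f) ^ m)⁻¹ = x ^ m * y * (x ^ m)⁻¹ := by
  have c1 : Commute x f := h1.symm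
  have c2 : Commute (f ^ m) y := (show Commute f y from h2).pow_left m
  have c3 : Commute (f ^ m) (x ^ m) := (c1.symm.pow_left m).pow_right m
  rw [c1.mul_pow m]
  constructor
  · rw [mul_inv_rev]
    have e1 : (f ^ m)⁻¹ * (x ^ m)⁻¹ * y * (x ^ m * f ^ m) = (f ^ m)⁻¹ * ((x ^ m)⁻¹ * y * x ^ m) * f ^ m := by group
    have c4 : Commute (f ^ m) ((x ^ m)⁻¹ * y * x ^ m) := ((c3.inv_right).mul_right c2).mul_right c3
    rw [e1, mul_assoc, ← c4.eq, ← mul_assoc, inv_mul_cancel, one_mul]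
  · rw [mul_inv_rev]
    have e1 : x ^ m * f ^ m * y * ((f ^ m)⁻¹ * (x ^ m)⁻¹) = x ^ m * (f ^ m * y * (f ^ m)⁻¹) * (x ^ m)⁻¹ := by group
    rw [e1, c2.eq, mul_assoc y, mul_inv_cancel, mul_one]

/-- `e` may be multiplied by an element of `F` if `F` is commutative. -/
def Dt1.mul (D : Dt1 μ a F) (hF : ∀ f ∈ F, ∀ f' ∈ F, f * f' = f' * f) {f : G1} (hf : f ∈ F) : Dt1 μ a F where
  h3 := D.h3
  hF2 := D.hF2
  hp := D.hp
  e := D.e * f
  u := D.u
  w := D.w
  cF f' hf' := by
    obtain ⟨h1, h2, h3⟩ := D.cF f' hf'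
    refine ⟨?_, h2, h3⟩
    rw [← mul_assoc, h1, mul_assoc, hF f' hf' f hf, mul_assoc]
  con := by
    obtain ⟨h1, h2, h3⟩ := D.cF f hf
    obtain ⟨c1, c2, c3⟩ := D.con
    refine ⟨?_, ?_, c3⟩
    · refine c1.congr fun m => ?_
      exact (conj_pow h1 h2 m).1.symm
    · refine c2.congr fun m => ?_
      exact (conj_pow h1 h3 m).2.symm

@[simp] theorem Dt1.ofDat_e {r : ℕ} (D : Dat μ a F r) (i : Fin r) : (Dt1.ofDat D i).e = D.e i := rfl

@[simp] theorem Dt1.mul_e (D : Dt1 μ a F) (hF : ∀ f ∈ F, ∀ f' ∈ F, f * f' = f' * f) {f : G1} (hf : f ∈ F) :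
    (D.mul hF hf).e = D.e * f := rfl

theorem Dt1.esc (D : Dt1 μ a F) {b : ℕ → G1} (hbF : ∀ n, b n ∈ F)
    (J : Finset (Fin N)) (c : List (Finset (Fin N))) (n : ℕ) :
    Tendsto (av fun k => mR μ a E (toReg (chStr S J c)) (WC S J n) (ltr (D.e ^ k) b)) atTop (𝓝 0) := by
  exact esc_mean D.h3 D.hp (R := toReg (chStr S J c)) (hasCoc (chStr S J c)) b (fun n => (D.cF _ (hbF n)).1)
    (fun n => (D.cF _ (hbF n)).2.1) (fun n => (D.cF _ (hbF n)).2.2) D.con.1 D.con.2.1 D.con.2.2.1 D.con.2.2.2 n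

private theorem av_const (c : ℝ) {K : ℕ} (hK : 1 ≤ K) : av (fun _ => c) K = c := by
  unfold av
  have h : (K : ℝ) ≠ 0 := by exact_mod_cast (by omega : K ≠ 0)
  rw [Finset.sum_const, Finset.card_range, nsmul_eq_mul]
  field_simp

/-- There is no component of type `T00 N` (two large gaps). -/
theorem mR_T00 (h : SO2 P S) (D : Dt1 μ a F) {b : ℕ → G1} (hbF : ∀ n, b n ∈ F) (c : List (Finset (Fin N))) :
    mR μ a E (toReg (chStr S (T00 N) c)) Set.univ b = 0 := by
  have h1 := D.esc (E := E) (S := S) hbF (T00 N) c 0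
  rw [WC_T00 h] at h1
  have h2 : ∀ k : ℕ, mR μ a E (toReg (chStr S (T00 N) c)) Set.univ (ltr (D.e ^ k) b) =
      mR μ a E (toReg (chStr S (T00 N) c)) Set.univ b := fun k =>
    mR_ltr (μ := μ) (a := a) (E := E) _ fun n => ((show Commute (b n) D.e from (D.cF _ (hbF n)).1).pow_right k).eq
  simp only [h2] at h1
  have h3 : Tendsto (fun _ : ℕ => mR μ a E (toReg (chStr S (T00 N) c)) Set.univ b) atTop (𝓝 0) := by
    refine h1.congr' ?_
    filter_upwards [eventually_ge_atTop 1] with K hK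
    exact av_const _ hK
  exact tendsto_nhds_unique tendsto_const_nhds h3

/-- The type of a component is a type. -/
theorem mR_ty (h : SO2 P S) (b : ℕ → G1) {J : Finset (Fin N)} (c : List (Finset (Fin N))) (hJ : ¬ Ty J) :
    mR μ a E (toReg (chStr S J c)) Set.univ b = 0 := by
  by_contra hne
  have h1 : 0 < mR μ a E (toReg (chStr S J c)) Set.univ b := lt_of_le_of_ne (mR_nonneg _ _ _) (Ne.symm hne)
  obtain ⟨γ, hγ⟩ := TC_nonemptyX ((hasComp_iff (a := a) (E := E) _ b).2 h1) 1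
  exact hJ (ty_of h le_rfl hγ J List.mem_cons_self)

theorem R1_eq : R1 S = toReg (chStr S (K1 N) []) := rfl

theorem R2_eq : R2 S = toReg (chStr S (K2 N) []) := rfl

/-- No element of `F` has much mass where both gaps are large. -/
theorem no_both (h : SO2 P S) (D : Dt1 μ a F) {β : ℝ} (hβ : 0 < β) :
    ∃ R : ℕ, ∀ f ∈ F, ‖cl μ (ind ℂ (Both S R)) (zx μ a E f)‖ < β := by
  classical
  have hN := h.hN
  by_contra hcon
  push Not at hcon
  choose f hfF hf using hcon
  have hTC : ∀ m, TC S ([] : List (Finset (Fin N))) m = Set.univ := by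
    intro m
    ext γ
    simp [Pool.Agent.Helper96.RK.TC]
  have hset : ∀ m, Both S m ⊆ TC S ([] : List (Finset (Fin N))) m \
      {γ | ∃ K ∈ ({K1 N, K2 N} : Finset (Finset (Fin N))), γ ∈ WC S K m} := by
    intro m γ hγ
    refine ⟨by rw [hTC]; trivial, ?_⟩
    rintro ⟨K, hK, hγK⟩
    rw [Finset.mem_insert, Finset.mem_singleton] at hK
    rcases hK with rfl | rfl
    · have h1 := hγK ⟨1, by omega⟩ (by rw [mem_K1]; simp only; omega)
      have h2 := hγ ⟨1, by omega⟩ (by simp)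
      linarith
    · have h1 := hγK ⟨0, by omega⟩ (by rw [mem_K2]; simp only; omega)
      have h2 := hγ ⟨0, by omega⟩ (by simp)
      linarith
  have cl_mono : ∀ {s t : Set G} (_ : s ⊆ t) (f : XL μ (L2 G)), ‖cl μ (ind ℂ s) f‖ ≤ ‖cl μ (ind ℂ t) f‖ := by
    intro s t hst f
    have h1 := cl_ind_ind (μ := μ) s t f
    rw [Set.inter_eq_left.2 hst] at h1
    rw [← h1]
    refine (norm_cl_le_of (C := 1) zero_le_one (fun x => ?_) _).trans (le_of_eq (one_mul _))
    rw [one_mul]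
    exact norm_ind2 s x
  obtain ⟨J, -, hJ, hcomp⟩ := selectK S ([] : List (Finset (Fin N))) {K1 N, K2 N} (zx μ a E) zx_bound hβ f
    (fun m => (hf m).trans (cl_mono (hset m) _))
  have h1 := (hasComp_iff (a := a) (E := E) _ f).1 hcomp
  have k1 := hJ (K1 N) (by simp)
  have k2 := hJ (K2 N) (by simp)
  have hT : Ty J := by
    by_contra hT
    rw [mR_ty h f [] hT] at h1
    exact lt_irrefl _ h1
  rcases ty_cases hN hT with k | k | k | k
  · exact k1 (k ▸ Finset.subset_univ _)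
  · exact k1 (k ▸ le_rfl)
  · exact k2 (k ▸ le_rfl)
  · rw [k, mR_T00 h D hfF] at h1
    exact lt_irrefl _ h1

/-- (B1) The components over `R1` and `R2` have all the mass. -/
theorem mass_one (h : SO2 P S) (D : Dt1 μ a F) {b : ℕ → G1} (hbF : ∀ n, b n ∈ F)
    (hb : Tendsto b atTop (cocompact G1)) :
    mR μ a E (R1 S) Set.univ b + mR μ a E (R2 S) Set.univ b = 1 := by
  classical
  have hN := h.hN
  apply le_antisymm
  · -- the supports are disjoint
    have e1 := mR_carried (μ := μ) (a := a) (E := E) (R1 S) (s := TC S [K1 N] 1) (fun n => TC_mem_FC S (K1 N) [] 1 n)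
      Set.univ b
    have e2 := mR_carried (μ := μ) (a := a) (E := E) (R2 S) (s := TC S [K2 N] 1) (fun n => TC_mem_FC S (K2 N) [] 1 n)
      Set.univ b
    rw [Set.inter_univ] at e1 e2
    have f1 := mR_le_ms (μ := μ) (a := a) (E := E) (R1 S) (TC S [K1 N] 1) b
    have f2 := mR_le_ms (μ := μ) (a := a) (E := E) (R2 S) (TC S [K2 N] 1) b
    have hdis : TC S [K2 N] 1 ⊆ (TC S [K1 N] 1)ᶜ := by
      intro γ h2 h1
      have g1 := ((TC_cons S).1 h1).1 ⟨0, by omega⟩ (by rw [mem_K1]; simp)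
      have g2 := ((TC_cons S).1 h2).1 ⟨1, by omega⟩ (by rw [mem_K2]; simp)
      have g3 : lg S γ ⟨1, by omega⟩ ≤ ∑ i ∈ K1 N, lg S γ i :=
        Finset.single_le_sum (fun i _ => lg_nonneg S γ i) (by rw [mem_K1]; simp only; omega)
      have g4 : lg S γ ⟨0, by omega⟩ ≤ ∑ i ∈ K2 N, lg S γ i :=
        Finset.single_le_sum (fun i _ => lg_nonneg S γ i) (by rw [mem_K2]; simp only; omega)
      push_cast at g1 g2
      linarith
    have f3 := ms_mono (μ := μ) (a := a) (E := E) hdis b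
    have f4 := ms_compl (μ := μ) (a := a) (E := E) (TC S [K1 N] 1) b
    linarith
  · refine le_of_forall_pos_le_add fun ε hε => ?_
    obtain ⟨R, hR⟩ := no_both (E := E) h D (β := Real.sqrt ε) (Real.sqrt_pos.2 hε)
    have f1 : ms μ a E (Both S R) b ≤ ε := by
      refine le_of_tendsto (ms_tendsto (μ := μ) (a := a) (E := E) (Both S R) b) (Eventually.of_forall fun n => ?_)
      have h1 := (hR (b n) (hbF n)).le
      have h2 := pow_le_pow_left₀ (norm_nonneg _) h1 2
      rwa [Real.sq_sqrt hε.le] at h2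
    have f2 := ms_mono (μ := μ) (a := a) (E := E) (TJ_both h R) b
    have f3 := ms_compl (μ := μ) (a := a) (E := E) (TJ S 2 (R + 1)) b
    obtain ⟨w, hw⟩ := succ_le (μ := μ) (a := a) (E := E) S (le_refl 1) (R + 1)
    have f4 := hw b (all_one S D.hF2 hb)
    have f5 : ∑ c ∈ CH N 1, mR μ a E (toReg (chStr S (hd c) c.tail)) (WC S (hd c) w) b ≤
        ∑ c ∈ ({[K1 N], [K2 N]} : Finset (List (Finset (Fin N)))),
          mR μ a E (toReg (chStr S (hd c) c.tail)) Set.univ b := by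
      have g1 : ∑ c ∈ CH N 1, mR μ a E (toReg (chStr S (hd c) c.tail)) (WC S (hd c) w) b ≤
          ∑ c ∈ CH N 1, mR μ a E (toReg (chStr S (hd c) c.tail)) Set.univ b :=
        Finset.sum_le_sum fun c _ => mR_mono _ (Set.subset_univ _) _
      refine g1.trans ?_
      rw [← Finset.sum_filter_add_sum_filter_not (CH N 1) (fun c => c = [K1 N] ∨ c = [K2 N])]
      have g2 : ∑ c ∈ (CH N 1).filter (fun c => ¬ (c = [K1 N] ∨ c = [K2 N])),
          mR μ a E (toReg (chStr S (hd c) c.tail)) Set.univ b = 0 := by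
        refine Finset.sum_eq_zero fun c hc => ?_
        rw [Finset.mem_filter, mem_CH] at hc
        obtain ⟨⟨hc1, hc2⟩, hc3⟩ := hc
        obtain ⟨J, rfl⟩ := List.length_eq_one_iff.1 hc1
        change mR μ a E (toReg (chStr S J [])) Set.univ b = 0
        have hJ : J ⊂ Finset.univ := hc2.1
        by_cases hT : Ty J
        · rcases ty_cases hN hT with k | k | k | k
          · exact absurd k hJ.ne
          · exact absurd (Or.inl (by rw [k])) hc3
          · exact absurd (Or.inr (by rw [k])) hc3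
          · rw [k]
            exact mR_T00 h D hbF []
        · exact mR_ty h b [] hT
      rw [g2, add_zero]
      refine Finset.sum_le_sum_of_subset_of_nonneg ?_ fun c _ _ => mR_nonneg _ _ _
      intro c hc
      rw [Finset.mem_filter] at hc
      rw [Finset.mem_insert, Finset.mem_singleton]
      exact hc.2
    have hne : ([K1 N] : List (Finset (Fin N))) ≠ [K2 N] := by
      intro h1
      have h2 : K1 N = K2 N := by simpa using h1
      exact K1_not_sub hN (J := K1 N) (h2 ▸ le_rfl) le_rfl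
    rw [Finset.sum_pair hne] at f5
    have f6 : mR μ a E (toReg (chStr S (hd [K1 N]) ([K1 N] : List (Finset (Fin N))).tail)) Set.univ b =
        mR μ a E (R1 S) Set.univ b := rfl
    have f7 : mR μ a E (toReg (chStr S (hd [K2 N]) ([K2 N] : List (Finset (Fin N))).tail)) Set.univ b =
        mR μ a E (R2 S) Set.univ b := rfl
    rw [f6, f7] at f5
    have f8 : (1 : ℕ) + 1 = 2 := rfl
    rw [f8] at f4
    linarith

theorem mR_univ (R : Reg G) (b : ℕ → G1) : mR μ a E R Set.univ b = ‖XPpr R (vec μ a E b)‖ ^ 2 := by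
  unfold mR
  rw [XUa_ind R (fun _ => univ_mem) (XPpr R (vec μ a E b)).2]
  rfl

/-- (B1) There is a component over `R1` or over `R2`. -/
theorem exists_comp (h : SO2 P S) (D : Dt1 μ a F) {b : ℕ → G1} (hbF : ∀ n, b n ∈ F)
    (hb : Tendsto b atTop (cocompact G1)) :
    XPpr (R1 S) (vec μ a E b) ≠ 0 ∨ XPpr (R2 S) (vec μ a E b) ≠ 0 := by
  by_contra hcon
  push Not at hcon
  have h1 := mass_one (E := E) h D hbF hb
  rw [mR_univ, mR_univ, hcon.1, hcon.2, norm_zero, norm_zero] at h1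
  norm_num at h1

/-- (B2) In the mean over `k` almost all of the mass of `e ^ k * b n` is where both gaps are large. -/
theorem both_mean (h : SO2 P S) (D : Dt1 μ a F) {b : ℕ → G1} (hbF : ∀ n, b n ∈ F)
    (hb : Tendsto b atTop (cocompact G1)) (C : ℕ) :
    Tendsto (av fun k => ms μ a E (Both S C)ᶜ (ltr (D.e ^ k) b)) atTop (𝓝 0) := by
  have h1 := succ_mean (μ := μ) (a := a) (E := E) (S := S) (le_refl 1) (all_one S D.hF2 hb)
    (fun n => (D.cF _ (hbF n)).1) (fun J c n => D.esc (E := E) (S := S) hbF J c n) (C + 1)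
  refine squeeze_zero (fun K => ?_) (fun K => ?_) h1
  · unfold av
    exact div_nonneg (Finset.sum_nonneg fun k _ => ms_nonneg _ _) (Nat.cast_nonneg K)
  · unfold av
    exact div_le_div_of_nonneg_right (Finset.sum_le_sum fun k _ =>
      ms_mono (Set.compl_subset_compl.2 (TJ_both h C)) _) (Nat.cast_nonneg K)

/-- Arbitrarily large `k` with a small value. -/
theorem exists_small {f : ℕ → ℝ} (h0 : ∀ k, 0 ≤ f k) (hf : Tendsto (av f) atTop (𝓝 0)) {ε : ℝ} (hε : 0 < ε) (K0 : ℕ) :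
    ∃ k, K0 ≤ k ∧ f k ≤ ε := by
  by_contra hcon
  push Not at hcon
  have h1 : ∀ᶠ K in atTop, av f K < ε / 2 := hf.eventually (gt_mem_nhds (by linarith))
  obtain ⟨K, hK, hK1⟩ := (h1.and (eventually_ge_atTop (2 * K0 + 1))).exists
  have hKp : (0 : ℝ) < K := by
    have : 0 < K := by omega
    exact_mod_cast this
  unfold av at hK
  rw [div_lt_iff₀ hKp] at hK
  have h2 : (∑ _k ∈ Finset.Ico K0 K, ε) ≤ ∑ k ∈ Finset.range K, f k := by
    calc (∑ _k ∈ Finset.Ico K0 K, ε) ≤ ∑ k ∈ Finset.Ico K0 K, f k :=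
          Finset.sum_le_sum fun k hk => (hcon k (Finset.mem_Ico.1 hk).1).le
      _ ≤ ∑ k ∈ Finset.range K, f k :=
          Finset.sum_le_sum_of_subset_of_nonneg (fun k hk => by
            rw [Finset.mem_range]
            exact (Finset.mem_Ico.1 hk).2) fun k _ _ => h0 k
  rw [Finset.sum_const, Nat.card_Ico, nsmul_eq_mul] at h2
  have h3 : (K : ℝ) / 2 ≤ ((K - K0 : ℕ) : ℝ) := by
    rw [div_le_iff₀ (by norm_num : (0 : ℝ) < 2)]
    have h4 : K ≤ (K - K0) * 2 := by omega
    exact_mod_cast h4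
  nlinarith

/-- (B2) Arbitrarily large `k` such that almost all of the mass of `e ^ k * b n` is where both gaps are large. -/
theorem exists_both (h : SO2 P S) (D : Dt1 μ a F) {b : ℕ → G1} (hbF : ∀ n, b n ∈ F)
    (hb : Tendsto b atTop (cocompact G1)) (C : ℕ) {ε : ℝ} (hε : 0 < ε) (K0 : ℕ) :
    ∃ k, K0 ≤ k ∧ ms μ a E (Both S C)ᶜ (ltr (D.e ^ k) b) ≤ ε :=
  exists_small (fun _ => ms_nonneg _ _) (both_mean (E := E) h D hbF hb C) hε K0

theorem Both_anti {C C' : ℕ} (h : C ≤ C') : Both S C' ⊆ Both S C := by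
  intro γ hγ i hi
  have h1 := hγ i hi
  have h2 : (C : ℝ) ≤ C' := by exact_mod_cast h
  linarith

/-- (B2) A sequence of powers of `e` such that the products have almost all of their mass where both gaps are
large. -/
theorem exists_tau (h : SO2 P S) (D : Dt1 μ a F) {b : ℕ → G1} (hbF : ∀ n, b n ∈ F)
    (hb : Tendsto b atTop (cocompact G1)) :
    ∃ τ : ℕ → ℕ, StrictMono τ ∧ ∀ n : ℕ, ms μ a E (Both S n)ᶜ (ltr (D.e ^ τ n) b) ≤ 1 / ((n : ℝ) + 1) := by
  have key : ∀ n K0 : ℕ, ∃ k, K0 ≤ k ∧ ms μ a E (Both S n)ᶜ (ltr (D.e ^ k) b) ≤ 1 / ((n : ℝ) + 1) := fun n K0 =>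
    exists_both (E := E) h D hbF hb n (by positivity) K0
  choose k hk1 hk2 using key
  let τ : ℕ → ℕ := fun n => Nat.rec (k 0 0) (fun n t => k (n + 1) (t + 1)) n
  have h0 : τ 0 = k 0 0 := rfl
  have h1 : ∀ n, τ (n + 1) = k (n + 1) (τ n + 1) := fun n => rfl
  refine ⟨τ, strictMono_nat_of_lt_succ fun n => ?_, fun n => ?_⟩
  · rw [h1]
    exact hk1 _ _
  · rcases n with _ | n
    · rw [h0]
      exact hk2 0 0
    · rw [h1]
      exact hk2 _ _

end

end Pool.Agent.Helper9.OB
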